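import Pool.Agent.helper99.PLR.Spec

set_option autoImplicit false

/-!
Row plr:UPA of the project plr (MP_d9e35a_co).
-/

open scoped Classical

namespace Pool.Agent.PLR

open Finset
open Pool.Agent.helper65.HC (V IsEig IsTop lam)
open Pool.Agent.helper9.HQ (Fam Dn E N Le Eig lk)
open Pool.Agent.helper9.HX (Ef)
open Pool.Agent.helper9.HLR (cel Lc)

noncomputable section

theorem UPA_mono {d : ℕ} (k : ℕ) (U : Fam d) (hU : Dn U) (w w' : Finset (Fin d)) (h : w ⊆ w') :
    upk k w' U ≤ upk k w U := by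
  unfold upk
  refine Finset.card_le_card fun x hx => ?_
  rw [Finset.mem_filter] at hx ⊢
  obtain ⟨h1, h2, h3, h4⟩ := hx
  exact ⟨h1, h2, Finset.disjoint_of_subset_right h h3, hU _ h4 _ (Finset.union_subset_union_right h)⟩

theorem UPA_dn {d : ℕ} (k : ℕ) (kap : ℝ) (U : Fam d) (hU : Dn U) : Dn (core k kap U) := by
  intro w' hw' w h
  unfold core at hw' ⊢
  rw [Finset.mem_filter] at hw' ⊢
  refine ⟨hU w' hw'.1 w h, hw'.2.trans ?_⟩
  exact_mod_cast UPA_mono k U hU w w' h

/-- **UPA** -/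
theorem UPA : UPA_stmt := by
  intro d k U kap hU
  refine ⟨fun w w' h => UPA_mono k U hU w w' h, UPA_dn k kap U hU, fun w hw i hi => ?_⟩
  unfold Sc
  rw [Finset.mem_filter]
  exact ⟨Finset.mem_univ i, UPA_dn k kap U hU w hw _ (Finset.singleton_subset_iff.2 hi)⟩

end

end Pool.Agent.PLR
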